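import Pool.Agent.N437.SPC.Stm

/-!
# SPC/EN: energy and a dyadic class of ratios
-/

set_option autoImplicit false

namespace Pool.Agent.N232.SPC

open Finset Pool.Agent.N437.SPC

/-- ratios of elements of `H` -/
noncomputable def Dq (H : Finset ℝ) : Finset ℝ := (H ×ˢ H).image (fun p => p.1 / p.2)

theorem energy_le (H : Finset ℝ) (h0 : (0 : ℝ) ∉ H) :
    Finset.mulEnergy H H ≤ ∑ l ∈ Dq H, rep H l ^ 2 := by
  classical
  unfold Finset.mulEnergy
  have hne : ∀ x ∈ H, x ≠ 0 := fun x hx e => h0 (e ▸ hx)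
  have e1 : ∑ l ∈ Dq H, rep H l ^ 2 = ((Dq H).sigma fun l =>
      (H.filter (fun c => l * c ∈ H)) ×ˢ (H.filter (fun c => l * c ∈ H))).card := by
    rw [card_sigma]
    refine sum_congr rfl fun l _ => ?_
    rw [card_product]
    unfold rep
    ring
  rw [e1]
  refine card_le_card_of_injOn
    (fun x => (⟨x.1.1 / x.1.2, (x.1.2, x.2.1)⟩ : (_ : ℝ) × (ℝ × ℝ))) ?_ ?_
  · rintro ⟨⟨a, a'⟩, ⟨b, b'⟩⟩ hx
    rw [mem_coe, mem_filter, mem_product, mem_product, mem_product] at hx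
    obtain ⟨⟨⟨ha, ha'⟩, hb, hb'⟩, hab⟩ := hx
    rw [mem_coe, mem_sigma, mem_product, mem_filter, mem_filter]
    have n1 := hne _ ha'
    simp only at ha ha' hb hb' hab n1 ⊢
    have q1 : a / a' * a' = a := div_mul_cancel₀ a n1
    have q2 : a / a' * b = b' := by
      rw [div_mul_eq_mul_div, hab, mul_comm, mul_div_assoc, div_self n1, mul_one]
    refine ⟨mem_image.2 ⟨(a, a'), mem_product.2 ⟨ha, ha'⟩, rfl⟩, ⟨ha', ?_⟩, ⟨hb, ?_⟩⟩
    · rw [q1]; exact ha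
    · rw [q2]; exact hb'
  · rintro ⟨⟨a, a'⟩, ⟨b, b'⟩⟩ hx ⟨⟨c, c'⟩, ⟨e, e'⟩⟩ hy hxy
    rw [mem_coe, mem_filter, mem_product, mem_product, mem_product] at hx hy
    obtain ⟨⟨⟨ha, ha'⟩, hb, hb'⟩, hab⟩ := hx
    obtain ⟨⟨⟨hc, hc'⟩, he, he'⟩, hce⟩ := hy
    simp only at ha ha' hb hb' hab hc hc' he he' hce
    simp only [Sigma.mk.injEq, heq_eq_eq, Prod.mk.injEq] at hxy
    obtain ⟨h1, h2, h3⟩ := hxy
    have n1 := hne _ ha'
    subst h2
    subst h3
    have h4 : a = c := by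
      have := congrArg (· * a') h1
      simp only [div_mul_cancel₀ _ n1] at this
      exact this
    subst h4
    have h5 : b' = e' := by
      have : a' * b' = a' * e' := by rw [← hab, hce]
      exact mul_left_cancel₀ n1 this
    subst h5
    rfl

theorem t_EN : S_EN := by
  classical
  intro H Q h0 hH hc
  have hne : ∀ x ∈ H, x ≠ 0 := fun x hx e => h0 (e ▸ hx)
  have hh : 0 < H.card := hH.card_pos
  -- number of pairs
  obtain ⟨N, hN⟩ : ∃ N : ℕ, N = ((H ×ˢ H).filter (fun xy => xy.1 * xy.2 ∈ Q)).card := ⟨_, rfl⟩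
  have hN1 : N = ∑ y ∈ H, cnt (fun a b => a * b) y H Q := by
    rw [hN, card_filter, sum_product]
    refine sum_congr rfl fun y _ => ?_
    unfold cnt
    rw [card_filter]
  have hN2 : 9 * H.card ^ 2 ≤ 10 * N := by
    rw [hN1, mul_sum]
    calc 9 * H.card ^ 2 = ∑ _y ∈ H, 9 * H.card := by rw [sum_const, smul_eq_mul]; ring
      _ ≤ ∑ y ∈ H, 10 * cnt (fun a b => a * b) y H Q := sum_le_sum hc
  have hE : N ^ 2 ≤ Q.card * ∑ l ∈ Dq H, rep H l ^ 2 := by
    rw [hN]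
    exact (card_sq_le_card_mul_mulEnergy H H Q).trans (Nat.mul_le_mul_left _ (energy_le H h0))
  -- representations
  have hD : ∀ l ∈ Dq H, l ≠ 0 ∧ 1 ≤ rep H l ∧ rep H l ≤ H.card := by
    intro l hl
    obtain ⟨⟨x, y⟩, hxy, rfl⟩ := mem_image.1 hl
    rw [mem_product] at hxy
    simp only at hxy
    refine ⟨div_ne_zero (hne _ hxy.1) (hne _ hxy.2), ?_, card_filter_le _ _⟩
    refine card_pos.2 ⟨y, mem_filter.2 ⟨hxy.2, ?_⟩⟩
    show x / y * y ∈ H
    rw [div_mul_cancel₀ _ (hne _ hxy.2)]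
    exact hxy.1
  obtain ⟨L, hL⟩ : ∃ L : ℕ, L = Nat.log 2 H.card + 1 := ⟨_, rfl⟩
  obtain ⟨R, hR⟩ : ∃ R : ℕ → Finset ℝ,
    R = fun j => (Dq H).filter (fun l => Nat.log 2 (rep H l) = j) := ⟨_, rfl⟩
  have hsum : ∑ l ∈ Dq H, rep H l ^ 2 ≤ ∑ j ∈ range L, (R j).card * 4 ^ (j + 1) := by
    have e1 : ∑ l ∈ Dq H, rep H l ^ 2 = ∑ j ∈ range L, ∑ l ∈ R j, rep H l ^ 2 := by
      rw [hR]
      refine (sum_fiberwise_of_maps_to (fun l hl => ?_) _).symm
      rw [mem_range, hL]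
      exact Nat.lt_succ_of_le (Nat.log_mono_right (hD l hl).2.2)
    rw [e1]
    refine sum_le_sum fun j _ => ?_
    rw [← smul_eq_mul, ← sum_const]
    refine sum_le_sum fun l hl => ?_
    rw [hR] at hl
    have h2 := (mem_filter.1 hl).2
    have h3 : rep H l < 2 ^ (j + 1) := by
      rw [← h2]
      exact Nat.lt_pow_succ_log_self (by norm_num) _
    calc rep H l ^ 2 ≤ (2 ^ (j + 1)) ^ 2 := Nat.pow_le_pow_left h3.le 2
      _ = 4 ^ (j + 1) := by rw [← pow_mul, mul_comm, pow_mul]; norm_num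
  -- pigeonhole
  have hLn : (range L).Nonempty := by rw [hL]; exact ⟨0, mem_range.2 (by omega)⟩
  obtain ⟨j, hj, hjE⟩ : ∃ j ∈ range L, ∑ l ∈ Dq H, rep H l ^ 2 ≤
      (R j).card * 4 ^ (j + 1) * L := by
    by_contra hcon
    push Not at hcon
    have h1 : ∑ j ∈ range L, (R j).card * 4 ^ (j + 1) * L <
        ∑ _j ∈ range L, ∑ l ∈ Dq H, rep H l ^ 2 := sum_lt_sum_of_nonempty hLn hcon
    rw [← sum_mul, sum_const, card_range, smul_eq_mul, mul_comm] at h1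
    exact absurd (Nat.mul_le_mul_left L hsum) (not_le.2 h1)
  refine ⟨R j, j, ?_, ?_, ?_⟩
  · intro l hl
    rw [hR] at hl
    obtain ⟨h1, h2⟩ := mem_filter.1 hl
    refine ⟨(hD l h1).1, ?_⟩
    rw [← h2]
    exact Nat.pow_log_le_self 2 (by have := (hD l h1).2.1; omega)
  · have h1 : (R j).card * 2 ^ j ≤ ∑ l ∈ R j, rep H l := by
      rw [← smul_eq_mul, ← sum_const]
      refine sum_le_sum fun l hl => ?_
      rw [hR] at hl
      obtain ⟨h1, h2⟩ := mem_filter.1 hl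
      rw [← h2]
      exact Nat.pow_log_le_self 2 (by have := (hD l h1).2.1; omega)
    refine h1.trans ?_
    have e1 : ∑ l ∈ R j, rep H l =
        ((R j).sigma fun l => H.filter (fun c => l * c ∈ H)).card := by
      rw [card_sigma]; rfl
    rw [e1, sq, ← card_product]
    refine card_le_card_of_injOn (fun p => (p.1 * p.2, p.2)) ?_ ?_
    · rintro ⟨l, c⟩ hp
      rw [mem_coe, mem_sigma, mem_filter] at hp
      rw [mem_coe, mem_product]
      exact ⟨hp.2.2, hp.2.1⟩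
    · rintro ⟨l, c⟩ hp ⟨l', c'⟩ _ hpp
      rw [mem_coe, mem_sigma, mem_filter] at hp
      simp only [Prod.mk.injEq] at hpp
      obtain ⟨h3, h4⟩ := hpp
      subst h4
      have h5 := mul_right_cancel₀ (hne _ hp.2.1) h3
      subst h5
      rfl
  · rw [← hL]
    have h1 : N ^ 2 ≤ Q.card * ((R j).card * 4 ^ (j + 1) * L) :=
      hE.trans (Nat.mul_le_mul_left _ hjE)
    have h2 : (9 * H.card ^ 2) ^ 2 ≤ (10 * N) ^ 2 := Nat.pow_le_pow_left hN2 2
    calc 81 * H.card ^ 4 = (9 * H.card ^ 2) ^ 2 := by ring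
      _ ≤ (10 * N) ^ 2 := h2
      _ = 100 * N ^ 2 := by ring
      _ ≤ 100 * (Q.card * ((R j).card * 4 ^ (j + 1) * L)) := Nat.mul_le_mul_left _ h1
      _ = 100 * Q.card * ((R j).card * 4 ^ (j + 1) * L) := by ring

end Pool.Agent.N232.SPC
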