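import Pool.Agent.N437.SPC.Stm

/-!
# SPC/SEP: one sample separates two families
-/

set_option autoImplicit false

namespace Pool.Agent.N232.SPC

open Finset Pool.Agent.N437.SPC

theorem t_SEP (h : S_VAR) : S_SEP := by
  intro α _ f B Z R W s a b hs hab hR hW hB hZ hinj hBc hZc
  have hw : (0 : ℝ) < W.card := by exact_mod_cast hW.card_pos
  have hr : (0 : ℝ) < R.card := by exact_mod_cast hR.card_pos
  have hs0 : (0 : ℝ) < s := by exact_mod_cast hs
  have hBp : (0 : ℝ) < B.card := by exact_mod_cast hB.card_pos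
  have hZp : (0 : ℝ) < Z.card := by exact_mod_cast hZ.card_pos
  obtain ⟨μ, hμ⟩ : ∃ μ : ℝ, μ = s * R.card / W.card := ⟨_, rfl⟩
  have hμ0 : 0 < μ := by rw [hμ]; positivity
  obtain ⟨T, hT⟩ : ∃ T : ℝ, T = (1 - (a + b) / 2) * μ := ⟨_, rfl⟩
  obtain ⟨τ, hτ⟩ : ∃ τ : ℝ, τ = (b - a) / 2 * μ := ⟨_, rfl⟩
  have hτ0 : 0 < τ := by rw [hτ]; exact mul_pos (by linarith) hμ0
  -- the sets `U y`
  have hU : ∀ y ∈ B ∪ Z, ((R.image (f y)) ∩ W).card = cnt f y R W := by
    intro y hy
    have e : (R.image (f y)) ∩ W = (R.filter (fun u => f y u ∈ W)).image (f y) := by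
      ext z
      simp only [mem_inter, mem_image, mem_filter]
      constructor
      · rintro ⟨⟨u, hu, rfl⟩, hz⟩
        exact ⟨u, ⟨hu, hz⟩, rfl⟩
      · rintro ⟨u, ⟨hu, hz⟩, rfl⟩
        exact ⟨⟨u, hu, rfl⟩, hz⟩
    unfold cnt
    rw [e, card_image_of_injOn]
    intro x hx y' hy' hxy
    exact hinj y hy (mem_coe.2 (mem_filter.1 (mem_coe.1 hx)).1)
      (mem_coe.2 (mem_filter.1 (mem_coe.1 hy')).1) hxy
  have hhits : ∀ S ∈ Fintype.piFinset (fun _ : Fin s => W), ∀ y,
      hits f R S y = (univ.filter (fun j => S j ∈ (R.image (f y)) ∩ W)).card := by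
    intro S hS y
    rw [Fintype.mem_piFinset] at hS
    unfold hits
    congr 1
    ext j
    simp only [mem_filter, mem_univ, true_and, mem_inter, hS j, and_true]
  -- mean
  have hm1 : ∀ y ∈ B ∪ Z, (s : ℝ) * (cnt f y R W : ℝ) / W.card ≤ μ := by
    intro y _
    rw [hμ]
    have : (cnt f y R W : ℝ) ≤ R.card := by
      exact_mod_cast card_filter_le _ _
    gcongr
  -- Chebyshev
  have hch : ∀ y ∈ B ∪ Z, (((Fintype.piFinset (fun _ : Fin s => W)).filter (fun S =>
      τ ^ 2 ≤ ((hits f R S y : ℝ) - s * (cnt f y R W : ℝ) / W.card) ^ 2)).card : ℝ) ≤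
      μ / τ ^ 2 * (W.card : ℝ) ^ s := by
    intro y hy
    have h1 := h W ((R.image (f y)) ∩ W) s inter_subset_right hW
    rw [hU y hy] at h1
    have h2 : ∑ S ∈ Fintype.piFinset (fun _ : Fin s => W),
        ((hits f R S y : ℝ) - s * (cnt f y R W : ℝ) / W.card) ^ 2 ≤
        s * (cnt f y R W : ℝ) / W.card * (W.card : ℝ) ^ s := by
      refine le_trans (le_of_eq (sum_congr rfl fun S hS => ?_)) h1
      rw [hhits S hS y]
    have h3 : τ ^ 2 * (((Fintype.piFinset (fun _ : Fin s => W)).filter (fun S =>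
        τ ^ 2 ≤ ((hits f R S y : ℝ) - s * (cnt f y R W : ℝ) / W.card) ^ 2)).card : ℝ) ≤
        ∑ S ∈ Fintype.piFinset (fun _ : Fin s => W),
          ((hits f R S y : ℝ) - s * (cnt f y R W : ℝ) / W.card) ^ 2 := by
      rw [mul_comm, ← nsmul_eq_mul, ← sum_const]
      refine le_trans (sum_le_sum fun S hS => (mem_filter.1 hS).2) ?_
      exact sum_le_sum_of_subset_of_nonneg (filter_subset _ _) fun _ _ _ => sq_nonneg _
    have h4 : τ ^ 2 * (((Fintype.piFinset (fun _ : Fin s => W)).filter (fun S =>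
        τ ^ 2 ≤ ((hits f R S y : ℝ) - s * (cnt f y R W : ℝ) / W.card) ^ 2)).card : ℝ) ≤
        μ * (W.card : ℝ) ^ s :=
      (h3.trans h2).trans (mul_le_mul_of_nonneg_right (hm1 y hy) (by positivity))
    rw [div_mul_eq_mul_div, le_div_iff₀ (by positivity), mul_comm]
    exact h4
  obtain ⟨q, hq⟩ : ∃ q : ℕ, q = ⌈T⌉₊ := ⟨_, rfl⟩
  -- failures
  have hfB : ∀ y ∈ B, ∀ S : Fin s → α, hits f R S y < q →
      τ ^ 2 ≤ ((hits f R S y : ℝ) - s * (cnt f y R W : ℝ) / W.card) ^ 2 := by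
    intro y hy S hS
    rw [hq, Nat.lt_ceil] at hS
    have h1 : (1 - a) * μ ≤ s * (cnt f y R W : ℝ) / W.card := by
      rw [hμ, ← mul_div_assoc]
      have := hBc y hy
      gcongr ?_ / _
      nlinarith
    have h2 : τ ≤ s * (cnt f y R W : ℝ) / W.card - hits f R S y := by
      have : τ = (1 - a) * μ - T := by rw [hτ, hT]; ring
      linarith
    nlinarith
  have hfZ : ∀ y ∈ Z, ∀ S : Fin s → α, q ≤ hits f R S y →
      τ ^ 2 ≤ ((hits f R S y : ℝ) - s * (cnt f y R W : ℝ) / W.card) ^ 2 := by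
    intro y hy S hS
    have hS' : T ≤ hits f R S y := by
      rw [hq] at hS
      exact Nat.ceil_le.1 hS
    have h1 : s * (cnt f y R W : ℝ) / W.card ≤ (1 - b) * μ := by
      rw [hμ, ← mul_div_assoc]
      have := hZc y hy
      gcongr ?_ / _
      nlinarith
    have h2 : τ ≤ hits f R S y - s * (cnt f y R W : ℝ) / W.card := by
      have : τ = T - (1 - b) * μ := by rw [hτ, hT]; ring
      linarith
    nlinarith
  -- sums over the samples
  have hcount : ∀ (Y : Finset α) (p : (Fin s → α) → α → Prop)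
      (_ : ∀ S, DecidablePred (p S)), Y ⊆ B ∪ Z →
      (∀ y ∈ Y, ∀ S, p S y →
        τ ^ 2 ≤ ((hits f R S y : ℝ) - s * (cnt f y R W : ℝ) / W.card) ^ 2) →
      ∑ S ∈ Fintype.piFinset (fun _ : Fin s => W), ((Y.filter (p S)).card : ℝ) ≤
        Y.card * (μ / τ ^ 2 * (W.card : ℝ) ^ s) := by
    intro Y p _ hY hp
    have e1 : ∀ S ∈ Fintype.piFinset (fun _ : Fin s => W), ((Y.filter (p S)).card : ℝ) =
        ∑ y ∈ Y, if p S y then (1 : ℝ) else 0 := by
      intro S _
      rw [← sum_filter]; simp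
    rw [sum_congr rfl e1, sum_comm, ← nsmul_eq_mul, ← sum_const]
    refine sum_le_sum fun y hy => ?_
    refine le_trans ?_ (hch y (hY hy))
    rw [← sum_filter]
    simp only [sum_const, nsmul_eq_mul, mul_one, Nat.cast_le]
    refine card_le_card fun S hS => ?_
    rw [mem_filter] at hS ⊢
    exact ⟨hS.1, hp y hy S hS.2⟩
  have hcB := hcount B (fun S y => hits f R S y < q) (fun S => inferInstance)
    subset_union_left hfB
  have hcZ := hcount Z (fun S y => q ≤ hits f R S y) (fun S => inferInstance)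
    subset_union_right hfZ
  obtain ⟨κ, hκ⟩ : ∃ κ : ℝ, κ = 8 * W.card / ((b - a) ^ 2 * s * R.card) := ⟨_, rfl⟩
  have hκ2 : 2 * (μ / τ ^ 2) = κ := by
    have hba : b - a ≠ 0 := by linarith
    rw [hκ, hτ, hμ]
    field_simp
    norm_num
  have hne : (Fintype.piFinset (fun _ : Fin s => W)).Nonempty := by
    obtain ⟨w, hw'⟩ := hW
    exact ⟨fun _ => w, Fintype.mem_piFinset.2 fun _ => hw'⟩
  have hcardpi : ((Fintype.piFinset (fun _ : Fin s => W)).card : ℝ) = (W.card : ℝ) ^ s := by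
    rw [Fintype.card_piFinset_const]; push_cast; rfl
  have htot : ∑ S ∈ Fintype.piFinset (fun _ : Fin s => W),
      ((Z.card : ℝ) * ((B.filter (fun y => hits f R S y < q)).card : ℝ) +
        (B.card : ℝ) * ((Z.filter (fun y => q ≤ hits f R S y)).card : ℝ)) ≤
      ∑ S ∈ Fintype.piFinset (fun _ : Fin s => W), κ * B.card * Z.card := by
    rw [sum_add_distrib, ← mul_sum, ← mul_sum, sum_const, nsmul_eq_mul, hcardpi, ← hκ2]
    have h1 := mul_le_mul_of_nonneg_left hcB hZp.le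
    have h2 := mul_le_mul_of_nonneg_left hcZ hBp.le
    nlinarith [h1, h2]
  obtain ⟨S, hS, hle⟩ := exists_le_of_sum_le hne htot
  refine ⟨S, hS, q, ?_, ?_, ?_⟩
  · rw [hq, Nat.ceil_le]
    obtain ⟨y, hy⟩ := hB
    have h1 := hBc y hy
    have h2 : (cnt f y R W : ℝ) ≤ W.card := by
      rw [← hU y (mem_union_left _ hy)]
      exact_mod_cast card_le_card inter_subset_right
    have h3 : T ≤ (1 - a) * μ := by
      have : T = (1 - a) * μ - τ := by rw [hτ, hT]; ring
      linarith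
    refine h3.trans ?_
    rw [hμ, ← mul_div_assoc, div_le_iff₀ hw]
    nlinarith
  · rw [← hκ]
    have h1 : (Z.card : ℝ) * ((B.filter (fun y => hits f R S y < q)).card : ℝ) ≤
        (Z.card : ℝ) * (κ * B.card) := by
      have : 0 ≤ (B.card : ℝ) * ((Z.filter (fun y => q ≤ hits f R S y)).card : ℝ) := by positivity
      linarith [hle, this, show κ * B.card * Z.card = (Z.card : ℝ) * (κ * B.card) by ring]
    exact le_of_mul_le_mul_left h1 hZp
  · rw [← hκ]
    have h1 : (B.card : ℝ) * ((Z.filter (fun y => q ≤ hits f R S y)).card : ℝ) ≤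
        (B.card : ℝ) * (κ * Z.card) := by
      have : 0 ≤ (Z.card : ℝ) * ((B.filter (fun y => hits f R S y < q)).card : ℝ) := by positivity
      linarith [hle, this, show κ * B.card * Z.card = (B.card : ℝ) * (κ * Z.card) by ring]
    exact le_of_mul_le_mul_left h1 hBp

end Pool.Agent.N232.SPC
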