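import Pool.Agent.N437.SPC.Stm

/-!
# SPC/STEP: structured or reducible
-/

set_option autoImplicit false

namespace Pool.Agent.N232.SPC

open Finset Pool.Agent.N437.SPC

theorem t_STEP (h : S_SEP) : S_STEP := by
  intro α _ f X Y A W s t hf hY hA hW hs ht h2t hWs
  have hs0 : (0 : ℝ) < s := by exact_mod_cast hs
  have ht0 : (0 : ℝ) < t := by exact_mod_cast ht
  obtain ⟨A', hA'⟩ : ∃ A' : Finset α, A' = A ∩ Y := ⟨_, rfl⟩
  rw [← hA'] at h2t ⊢
  have hA'Y : A' ⊆ Y := by rw [hA']; exact inter_subset_right
  have hA'A : A' ⊆ A := by rw [hA']; exact inter_subset_left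
  have hA'c : 0 < A'.card := by omega
  have hA'n : A'.Nonempty := card_pos.1 hA'c
  have hYc : A'.card ≤ Y.card := card_le_card hA'Y
  have hY0 : 0 < Y.card := by omega
  have hWn : W.Nonempty := by
    obtain ⟨x, hx⟩ := hA'n
    exact ⟨f x x, hW x (hA'A hx) x (hA'A hx)⟩
  have hWc0 : (0 : ℝ) < W.card := by exact_mod_cast hWn.card_pos
  have hYR : (0 : ℝ) < Y.card := by exact_mod_cast hY0
  have hWsR : 640000 * (W.card : ℝ) ≤ s * t := by exact_mod_cast hWs
  have hinjY : ∀ y ∈ Y, ∀ R : Finset α, R ⊆ X → Set.InjOn (f y) R := by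
    intro y hy R hR x hx z hz hxz
    exact hf.2 y (hY hy) x (hR (mem_coe.1 hx)) z (hR (mem_coe.1 hz)) hxz
  obtain ⟨Lo, hLo⟩ : ∃ Lo : Finset α,
    Lo = A'.filter (fun y => 100 * cnt f y Y W < 99 * Y.card) := ⟨_, rfl⟩
  have hLoA : Lo ⊆ A' := by rw [hLo]; exact filter_subset _ _
  -- the bound for the reduced set
  have hred : ∀ (R Z : Finset α) (S : Fin s → α) (q : ℕ), Z ⊆ Y → (Y.card : ℝ) ≤ 199 * Z.card →
      ((Z.filter (fun y => q ≤ hits f R S y)).card : ℝ) ≤ Z.card / 2 →
      400 * (red f R Y S q).card ≤ 399 * Y.card := by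
    intro R Z S q hZY hZ hq
    have e1 : red f R Y S q ⊆ (Y \ Z) ∪ (Z.filter (fun y => q ≤ hits f R S y)) := by
      intro y hy
      unfold red at hy
      rw [mem_filter] at hy
      rw [mem_union, mem_sdiff, mem_filter]
      by_cases hyZ : y ∈ Z
      · exact Or.inr ⟨hyZ, hy.2⟩
      · exact Or.inl ⟨hy.1, hyZ⟩
    have e2 : ((red f R Y S q).card : ℝ) ≤ ((Y \ Z).card : ℝ) +
        ((Z.filter (fun y => q ≤ hits f R S y)).card : ℝ) := by
      exact_mod_cast (card_le_card e1).trans (card_union_le _ _)
    have e3 : ((Y \ Z).card : ℝ) = Y.card - Z.card := by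
      rw [card_sdiff_of_subset hZY, Nat.cast_sub (card_le_card hZY)]
    have e4 : 400 * ((red f R Y S q).card : ℝ) ≤ 399 * Y.card := by
      rw [e3] at e2
      linarith
    exact_mod_cast e4
  by_cases hcase : t < Lo.card
  · -- first case
    right
    obtain ⟨R, hRL, hRc⟩ := exists_subset_card_eq hcase.le
    have hRA : R ⊆ A' := hRL.trans hLoA
    have hRX : R ⊆ X := hRA.trans (hA'Y.trans hY)
    have hRn : R.Nonempty := card_pos.1 (by omega)
    refine ⟨R, Or.inr ⟨hRX, hRc⟩, ?_⟩
    obtain ⟨Z, hZ⟩ : ∃ Z : Finset α, Z = Y.filter (fun y => 200 * cnt f y R W ≤ 199 * t) :=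
      ⟨_, rfl⟩
    have hZY : Z ⊆ Y := by rw [hZ]; exact filter_subset _ _
    -- double counting
    have hdc : ∑ y ∈ Y, cnt f y R W = ∑ a ∈ R, cnt f a Y W := by
      unfold cnt
      simp only [card_filter]
      rw [sum_comm]
      refine sum_congr rfl fun a ha => sum_congr rfl fun y hy => ?_
      rw [hf.1 y (hY hy) a (hRX ha)]
    have h1 : 100 * ∑ y ∈ Y, cnt f y R W ≤ 99 * Y.card * t := by
      rw [hdc, mul_sum]
      calc ∑ a ∈ R, 100 * cnt f a Y W ≤ ∑ _a ∈ R, 99 * Y.card := by
            refine sum_le_sum fun a ha => ?_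
            have := hRL ha
            rw [hLo, mem_filter] at this
            exact this.2.le
        _ = 99 * Y.card * t := by rw [sum_const, hRc, smul_eq_mul, mul_comm]
    have h2 : (Y \ Z).card * (199 * t) ≤ 200 * ∑ y ∈ Y, cnt f y R W := by
      rw [mul_sum, ← smul_eq_mul, ← sum_const]
      refine le_trans (sum_le_sum fun y hy => ?_)
        (sum_le_sum_of_subset (f := fun y => 200 * cnt f y R W) sdiff_subset)
      rw [mem_sdiff, hZ, mem_filter, not_and, not_le] at hy
      exact (hy.2 hy.1).le
    have h3 : 199 * (Y \ Z).card ≤ 198 * Y.card := by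
      have : (199 * (Y \ Z).card) * t ≤ (198 * Y.card) * t := by nlinarith
      exact le_of_mul_le_mul_right this ht
    have h4 : (Y \ Z).card + Z.card = Y.card := card_sdiff_add_card_eq_card hZY
    have h5 : Y.card ≤ 199 * Z.card := by omega
    have hZn : Z.Nonempty := card_pos.1 (by omega)
    have hZR : (0 : ℝ) < Z.card := by exact_mod_cast hZn.card_pos
    obtain ⟨S, hS, q, hq, hB, hZb⟩ := h f A' Z R W s 0 (1 / 200) hs (by norm_num) hRn hWn hA'n hZn
      (fun y hy => hinjY y (by
        rcases mem_union.1 hy with h | h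
        · exact hA'Y h
        · exact hZY h) R hRX)
      (fun y hy => by
        have : cnt f y R W = R.card := by
          unfold cnt
          rw [filter_true_of_mem]
          intro u hu
          exact hW y (hA'A hy) u (hA'A (hRA hu))
        rw [this]; linarith)
      (fun y hy => by
        rw [hZ, mem_filter] at hy
        have h6 : 200 * (cnt f y R W : ℝ) ≤ 199 * t := by exact_mod_cast hy.2
        rw [hRc]
        linarith)
    have hκ : 8 * (W.card : ℝ) / ((1 / 200 - 0) ^ 2 * s * R.card) =
        320000 * W.card / (s * t) := by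
      rw [hRc]
      field_simp
      norm_num
    rw [hκ] at hB hZb
    have hκ2 : 320000 * (W.card : ℝ) / (s * t) ≤ 1 / 2 := by
      rw [div_le_iff₀ (by positivity)]
      linarith
    refine ⟨S, hS, q, hq, hred R Z S q hZY (by exact_mod_cast h5) ?_, ?_⟩
    · refine hZb.trans ?_
      have := mul_le_mul_of_nonneg_right hκ2 hZR.le
      linarith
    · have e1 : A' \ red f R Y S q ⊆ A'.filter (fun y => hits f R S y < q) := by
        intro y hy
        rw [mem_sdiff] at hy
        rw [mem_filter]
        refine ⟨hy.1, ?_⟩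
        by_contra hn
        apply hy.2
        unfold red
        rw [mem_filter]
        exact ⟨hA'Y hy.1, not_lt.1 hn⟩
      have e2 : ((A' \ red f R Y S q).card : ℝ) ≤
          ((A'.filter (fun y => hits f R S y < q)).card : ℝ) := by
        exact_mod_cast card_le_card e1
      linarith
  · -- second case
    rw [not_lt] at hcase
    have hsub : A' \ gd f Y W ⊆ Lo := by
      intro y hy
      rw [mem_sdiff] at hy
      rw [hLo, mem_filter]
      refine ⟨hy.1, ?_⟩
      have : ¬ (97 * Y.card ≤ 100 * cnt f y Y W) := by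
        intro hc
        apply hy.2
        unfold gd
        rw [mem_filter]
        exact ⟨hA'Y hy.1, hc⟩
      omega
    by_cases hgd : 99 * Y.card ≤ 100 * (gd f Y W).card
    · exact Or.inl ⟨hgd, (card_le_card hsub).trans hcase⟩
    right
    rw [not_le] at hgd
    refine ⟨Y, Or.inl rfl, ?_⟩
    obtain ⟨Z, hZ⟩ : ∃ Z : Finset α, Z = Y \ gd f Y W := ⟨_, rfl⟩
    have hZY : Z ⊆ Y := by rw [hZ]; exact sdiff_subset
    have hgY : gd f Y W ⊆ Y := filter_subset _ _
    have h4 : Z.card + (gd f Y W).card = Y.card := by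
      rw [hZ]; exact card_sdiff_add_card_eq_card hgY
    have h5 : Y.card < 100 * Z.card := by omega
    have hZn : Z.Nonempty := card_pos.1 (by omega)
    have hZR : (0 : ℝ) < Z.card := by exact_mod_cast hZn.card_pos
    obtain ⟨B, hB⟩ : ∃ B : Finset α, B = A' \ Lo := ⟨_, rfl⟩
    have hBA : B ⊆ A' := by rw [hB]; exact sdiff_subset
    have hBc : B.card + Lo.card = A'.card := by
      rw [hB]; exact card_sdiff_add_card_eq_card hLoA
    have hBn : B.Nonempty := card_pos.1 (by omega)
    have hYn : Y.Nonempty := card_pos.1 hY0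
    obtain ⟨S, hS, q, hq, hBb, hZb⟩ := h f B Z Y W s (1 / 100) (3 / 100) hs (by norm_num) hYn hWn
      hBn hZn
      (fun y hy => hinjY y (by
        rcases mem_union.1 hy with h | h
        · exact hA'Y (hBA h)
        · exact hZY h) Y hY)
      (fun y hy => by
        have h6 : 99 * Y.card ≤ 100 * cnt f y Y W := by
          rw [hB, mem_sdiff, hLo, mem_filter, not_and, not_lt] at hy
          exact hy.2 hy.1
        have h7 : 99 * (Y.card : ℝ) ≤ 100 * cnt f y Y W := by exact_mod_cast h6
        linarith)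
      (fun y hy => by
        have h6 : 100 * cnt f y Y W < 97 * Y.card := by
          rw [hZ, mem_sdiff] at hy
          by_contra hc
          apply hy.2
          unfold gd
          rw [mem_filter]
          exact ⟨hy.1, not_lt.1 hc⟩
        have h7 : 100 * (cnt f y Y W : ℝ) < 97 * Y.card := by exact_mod_cast h6
        linarith)
    have hYt : (t : ℝ) ≤ Y.card := by
      have : t ≤ Y.card := by omega
      exact_mod_cast this
    have hκ : 8 * (W.card : ℝ) / ((3 / 100 - 1 / 100) ^ 2 * s * Y.card) ≤
        320000 * W.card / (s * t) := by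
      have e1 : 8 * (W.card : ℝ) / ((3 / 100 - 1 / 100) ^ 2 * s * Y.card) =
          20000 * W.card / (s * Y.card) := by
        field_simp
        norm_num
      rw [e1]
      gcongr
      norm_num
    have hκ2 : 320000 * (W.card : ℝ) / (s * t) ≤ 1 / 2 := by
      rw [div_le_iff₀ (by positivity)]
      linarith
    refine ⟨S, hS, q, hq, hred Y Z S q hZY ?_ ?_, ?_⟩
    · have : (Y.card : ℝ) < 100 * Z.card := by exact_mod_cast h5
      linarith
    · refine hZb.trans ?_
      have := mul_le_mul_of_nonneg_right (hκ.trans hκ2) hZR.le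
      linarith
    · have e1 : A' \ red f Y Y S q ⊆ Lo ∪ B.filter (fun y => hits f Y S y < q) := by
        intro y hy
        rw [mem_sdiff] at hy
        rw [mem_union, mem_filter, hB, mem_sdiff]
        by_cases hyL : y ∈ Lo
        · exact Or.inl hyL
        · refine Or.inr ⟨⟨hy.1, hyL⟩, ?_⟩
          by_contra hn
          apply hy.2
          unfold red
          rw [mem_filter]
          exact ⟨hA'Y hy.1, not_lt.1 hn⟩
      have e2 : ((A' \ red f Y Y S q).card : ℝ) ≤ (Lo.card : ℝ) +
          ((B.filter (fun y => hits f Y S y < q)).card : ℝ) := by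
        exact_mod_cast (card_le_card e1).trans (card_union_le _ _)
      have e3 : (Lo.card : ℝ) ≤ t := by exact_mod_cast hcase
      have e4 : (B.card : ℝ) ≤ A'.card := by exact_mod_cast card_le_card hBA
      have e5 : 8 * (W.card : ℝ) / ((3 / 100 - 1 / 100) ^ 2 * s * Y.card) * B.card ≤
          320000 * W.card / (s * t) * A'.card := by
        have : (0 : ℝ) ≤ 8 * (W.card : ℝ) / ((3 / 100 - 1 / 100) ^ 2 * s * Y.card) := by positivity
        have : (0 : ℝ) ≤ 320000 * (W.card : ℝ) / (s * t) := by positivity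
        exact mul_le_mul hκ e4 (Nat.cast_nonneg _) this
      linarith

end Pool.Agent.N232.SPC
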