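import Pool.Agent.N437.SPC.Stm

/-!
# SPC/VAR: variance of a random sample
-/

set_option autoImplicit false

namespace Pool.Agent.N232.SPC

open Finset Pool.Agent.N437.SPC

theorem sum_pi_succ {α : Type} [DecidableEq α] (W : Finset α) (s : ℕ)
    (F : (Fin (s + 1) → α) → ℝ) :
    ∑ S ∈ Fintype.piFinset (fun _ : Fin (s + 1) => W), F S =
      ∑ x ∈ W, ∑ S ∈ Fintype.piFinset (fun _ : Fin s => W), F (Fin.cons x S) := by
  rw [← sum_product']
  refine sum_bij' (fun S _ => (S 0, Fin.tail S)) (fun p _ => Fin.cons p.1 p.2) ?_ ?_ ?_ ?_ ?_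
  · intro S hS
    rw [Fintype.mem_piFinset] at hS
    rw [mem_product, Fintype.mem_piFinset]
    exact ⟨hS 0, fun j => hS j.succ⟩
  · rintro ⟨x, S⟩ hS
    rw [mem_product, Fintype.mem_piFinset] at hS
    rw [Fintype.mem_piFinset]
    intro j
    refine Fin.cases ?_ (fun i => ?_) j
    · exact hS.1
    · exact hS.2 i
  · intro S _
    exact Fin.cons_self_tail S
  · rintro ⟨x, S⟩ _
    rfl
  · intro S _
    rw [Fin.cons_self_tail]

theorem sum_sq {α : Type} [DecidableEq α] (W : Finset α) (g : α → ℝ) (hg : ∑ x ∈ W, g x = 0)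
    (s : ℕ) : (W.card : ℝ) * ∑ S ∈ Fintype.piFinset (fun _ : Fin s => W), (∑ j, g (S j)) ^ 2 =
      s * (W.card : ℝ) ^ s * ∑ x ∈ W, g x ^ 2 := by
  induction s with
  | zero => simp
  | succ s ih =>
    rw [sum_pi_succ]
    have h1 : ∀ x ∈ W, ∑ S ∈ Fintype.piFinset (fun _ : Fin s => W),
        (∑ j, g ((Fin.cons x S : Fin (s + 1) → α) j)) ^ 2 =
        (W.card : ℝ) ^ s * g x ^ 2 +
          2 * g x * (∑ S ∈ Fintype.piFinset (fun _ : Fin s => W), ∑ j, g (S j)) +
          ∑ S ∈ Fintype.piFinset (fun _ : Fin s => W), (∑ j, g (S j)) ^ 2 := by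
      intro x _
      have h2 : ∀ S ∈ Fintype.piFinset (fun _ : Fin s => W),
          (∑ j, g ((Fin.cons x S : Fin (s + 1) → α) j)) ^ 2 =
          g x ^ 2 + 2 * g x * (∑ j, g (S j)) + (∑ j, g (S j)) ^ 2 := by
        intro S _
        rw [Fin.sum_univ_succ]
        simp only [Fin.cons_zero, Fin.cons_succ]
        ring
      rw [sum_congr rfl h2, sum_add_distrib, sum_add_distrib, sum_const, ← mul_sum,
        Fintype.card_piFinset_const, nsmul_eq_mul]
      push_cast
      ring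
    rw [sum_congr rfl h1, sum_add_distrib, sum_add_distrib, ← mul_sum, ← sum_mul, ← mul_sum, hg,
      sum_const, nsmul_eq_mul]
    have h3 : (W.card : ℝ) * ((W.card : ℝ) ^ s * ∑ x ∈ W, g x ^ 2 +
        2 * 0 * (∑ S ∈ Fintype.piFinset (fun _ : Fin s => W), ∑ j, g (S j)) +
        (W.card : ℝ) * ∑ S ∈ Fintype.piFinset (fun _ : Fin s => W), (∑ j, g (S j)) ^ 2) =
        (W.card : ℝ) ^ (s + 1) * ∑ x ∈ W, g x ^ 2 +
        (W.card : ℝ) * ((W.card : ℝ) *
          ∑ S ∈ Fintype.piFinset (fun _ : Fin s => W), (∑ j, g (S j)) ^ 2) := by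
      rw [pow_succ]; ring
    rw [h3, ih, pow_succ]
    push_cast
    ring

theorem t_VAR : S_VAR := by
  intro α _ W U s hUW hW
  have hw : (0 : ℝ) < W.card := by exact_mod_cast hW.card_pos
  obtain ⟨p, hp⟩ : ∃ p : ℝ, p = U.card / W.card := ⟨_, rfl⟩
  obtain ⟨g, hg⟩ : ∃ g : α → ℝ, g = fun x => (if x ∈ U then 1 else 0) - p := ⟨_, rfl⟩
  have hpw : p * W.card = U.card := by rw [hp]; field_simp
  have hfil : W.filter (fun x => x ∈ U) = U := by
    ext x
    rw [mem_filter]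
    exact ⟨fun h => h.2, fun h => ⟨hUW h, h⟩⟩
  have hind : ∑ x ∈ W, (if x ∈ U then (1 : ℝ) else 0) = U.card := by
    rw [← sum_filter, hfil]; simp
  have h0 : ∑ x ∈ W, g x = 0 := by
    rw [hg]
    simp only
    rw [sum_sub_distrib, hind, sum_const, nsmul_eq_mul]
    linarith [mul_comm (W.card : ℝ) p]
  have h2 : ∑ x ∈ W, g x ^ 2 ≤ U.card := by
    have e1 : ∀ x ∈ W, g x ^ 2 = (1 - 2 * p) * (if x ∈ U then (1 : ℝ) else 0) + p ^ 2 := by
      intro x _
      rw [hg]
      simp only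
      split_ifs <;> ring
    rw [sum_congr rfl e1, sum_add_distrib, ← mul_sum, hind, sum_const, nsmul_eq_mul]
    have e2 : (W.card : ℝ) * p ^ 2 = p * U.card := by rw [← hpw]; ring
    rw [e2]
    have hp0 : 0 ≤ p := by rw [hp]; positivity
    have hu0 : (0 : ℝ) ≤ U.card := Nat.cast_nonneg _
    nlinarith [mul_nonneg hp0 hu0]
  have h3 := sum_sq W g h0 s
  have h4 : ∀ S ∈ Fintype.piFinset (fun _ : Fin s => W),
      (((univ.filter (fun j => S j ∈ U)).card : ℝ) - s * U.card / W.card) ^ 2 =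
      (∑ j, g (S j)) ^ 2 := by
    intro S _
    congr 1
    rw [hg]
    simp only
    rw [sum_sub_distrib, ← sum_filter]
    simp only [sum_const, nsmul_eq_mul, mul_one, card_univ, Fintype.card_fin]
    rw [hp]
    ring
  rw [sum_congr rfl h4]
  have h5 : (W.card : ℝ) * ∑ S ∈ Fintype.piFinset (fun _ : Fin s => W), (∑ j, g (S j)) ^ 2 ≤
      (W.card : ℝ) * (s * U.card / W.card * (W.card : ℝ) ^ s) := by
    rw [h3]
    have e3 : (W.card : ℝ) * (s * U.card / W.card * (W.card : ℝ) ^ s) =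
        s * (W.card : ℝ) ^ s * U.card := by field_simp
    rw [e3]
    exact mul_le_mul_of_nonneg_left h2 (by positivity)
  exact le_of_mul_le_mul_left h5 hw

end Pool.Agent.N232.SPC
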